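import Mathlib
import Pool.Agent.H316.EM.Stm2

/-! Project EM (helper316): GF, relative version of P. Hall's generic freeness (helper343).
Adaptation of `Pool.Agent.Y45.HM.gen_free`. -/

set_option autoImplicit false
set_option linter.unusedSectionVars false

namespace Pool.Agent.H343.EM

open Pool.Agent.Y45.HM
open Pool.Agent.H316.EM (Chn)
open Pool.Agent.Helper294.HallC (Ser)

section

variable {J Γ A : Type} [CommRing J] [Group Γ] [AddCommGroup A] [Module J A]
  [DistribMulAction Γ A] [SMulCommClass Γ J A]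

/-- the span of the translates -/
def sp (J : Type) [CommRing J] {Γ A : Type} [Group Γ] [AddCommGroup A] [Module J A]
    [DistribMulAction Γ A] (K : Subgroup Γ) (F : Set A) : Submodule J A :=
  Submodule.span J {a : A | ∃ g ∈ K, ∃ x ∈ F, a = g • x}

theorem sp_mono {K K' : Subgroup Γ} (h : K ≤ K') (F : Set A) :
    (sp J K F : Submodule J A) ≤ sp J K' F := by
  refine Submodule.span_mono ?_
  rintro a ⟨g, hg, x, hx, rfl⟩
  exact ⟨g, h hg, x, hx, rfl⟩

theorem sp_St (K : Subgroup Γ) (F : Set A) : St K (sp J K F : Submodule J A) := span_St K F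

/-- one step of the chain -/
theorem step [IsDomain J] [IsNoetherianRing J] (s : ℕ) (R K : Subgroup Γ) (t : Γ)
    (hs : Ser s R) (hRK : R ≤ K) (ht : t ∈ K) (hn : ∀ x, x ∈ R ↔ t * x * t⁻¹ ∈ R)
    (hc : ∀ x ∈ K, ∃ k : ℤ, t ^ (-k) * x ∈ R) (F : Finset A) :
    ∃ τ : J, τ ≠ 0 ∧ GF τ (sp J R (F : Set A)) (sp J K (F : Set A)) := by
  classical
  let X : Submodule J A := ⊥
  let N : Submodule J A := sp J R (F : Set A)
  let Y : Submodule J A := sp J K (F : Set A)
  have hX : St K X := by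
    intro g _ x hx
    rw [(Submodule.mem_bot J).1 hx, smul_zero]
    exact Submodule.zero_mem _
  have hXt : tr t X ≤ X := (hX.tr_eq ht).le
  have hXN : X ≤ N := bot_le
  have hNR : St R N := sp_St R _
  have hNoe : NoeS R X N := FGS.noe s R hs X N (hX.mono hRK) ⟨F, by rw [bot_sup_eq]; rfl⟩
  have hFG : ∀ L : Submodule J A, L ≤ N → FGS R L N := by
    intro L h2
    refine ⟨F, le_antisymm le_sup_right (sup_le h2 le_rfl)⟩
  have hNY : N ≤ Y := sp_mono hRK _
  have hYK : St K Y := sp_St K _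
  have hSY : ∀ n, Sq t X N n ≤ Y := by
    intro n
    induction n with
    | zero => exact hXN.trans hNY
    | succ n ihn =>
      refine sup_le ihn ?_
      rw [← hYK.tr_eq (K.pow_mem ht n)]
      exact tr_mono _ hNY
  have hcov : ∀ y ∈ Y, ∃ K' n : ℕ, t ^ K' • y ∈ Sq t X N n := by
    intro y hy
    refine Sq_cover (N := N) hc hXt (F : Set A) ?_ y ?_
    · intro g hg a ha
      exact Submodule.subset_span ⟨g, hg, a, ha, rfl⟩
    · exact Submodule.mem_sup_right hy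
  -- the modules of leading coefficients
  let L : ℕ → Submodule J A := fun n => N ⊓ tr (t ^ n)⁻¹ (Sq t X N n)
  have hL : ∀ n m, m ∈ L n ↔ m ∈ N ∧ t ^ n • m ∈ Sq t X N n := by
    intro n m
    rw [Submodule.mem_inf, mem_tr, inv_inv]
  have hLmono : Monotone L := by
    refine monotone_nat_of_le_succ fun n m hm => ?_
    rw [hL] at hm ⊢
    refine ⟨hm.1, ?_⟩
    rw [pow_succ', mul_smul]
    exact Sq_t t X N hXt n hm.2
  have hLN : ∀ n, L n ≤ N := fun n => inf_le_left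
  have hLR : ∀ n, St R (L n) := fun n =>
    hNR.inf ((Sq_St hn (hX.mono hRK) hNR n).tr_inv (norm_pow hn n))
  obtain ⟨n0, hn0⟩ := hNoe L hLmono (fun n => ⟨bot_le, hLN n, hLR n⟩)
  have hIH : ∀ n, ∃ τ : J, τ ≠ 0 ∧ GF τ (L n) N := fun n =>
    gen_free s R hs (L n) N (hLR n) (hFG _ (hLN n))
  choose τs hτs hGFs using hIH
  let τ1 : J := ∏ i ∈ Finset.range (n0 + 1), τs i
  have hτ1 : τ1 ≠ 0 := Finset.prod_ne_zero_iff.2 fun i _ => hτs i
  have hG1 : ∀ n, GF τ1 (L n) N := by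
    intro n
    by_cases h : n ≤ n0
    · exact (hGFs n).dvd (Finset.dvd_prod_of_mem τs (Finset.mem_range.2 (by omega)))
    · rw [hn0 n (by omega)]
      exact (hGFs n0).dvd (Finset.dvd_prod_of_mem τs (Finset.mem_range.2 (by omega)))
  have hG2 : ∀ n, GF τ1 (Sq t X N n) (Sq t X N (n + 1)) := by
    intro n
    rw [Sq_succ]
    refine (hG1 n).trans_tr (t ^ n) ?_
    intro m hm
    rw [hL]
    exact ⟨fun h => h.2, fun h => ⟨hm, h⟩⟩
  -- the nonnegative part
  let Bp : Submodule J A := ⨆ n, Sq t X N n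
  have hSq1 : Sq t X N 1 = N := by
    rw [Sq_succ, pow_zero, tr_one]
    exact bot_sup_eq _
  have hG3 : GF τ1 N Bp := by
    have h1 := GF.chain (fun n => Sq t X N (n + 1)) (fun n => Sq_mono t X N (Nat.le_succ _))
      (fun n => hG2 (n + 1))
    have h2 : (⨆ n, Sq t X N (n + 1)) = Bp := by
      apply le_antisymm
      · exact iSup_le fun n => le_iSup (fun n => Sq t X N n) (n + 1)
      · exact iSup_le fun n => (Sq_mono t X N (Nat.le_succ n)).trans
          (le_iSup (fun n => Sq t X N (n + 1)) n)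
    rw [h2] at h1
    simp only [zero_add] at h1
    rw [hSq1] at h1
    exact h1
  have hBmem : ∀ y, y ∈ Bp ↔ ∃ n, y ∈ Sq t X N n := fun y =>
    Submodule.mem_iSup_of_directed _ (Sq_mono t X N).directed_le
  have hBt : tr t Bp ≤ Bp := by
    intro y hy
    rw [mem_tr, hBmem] at hy
    obtain ⟨n, hn'⟩ := hy
    rw [hBmem]
    refine ⟨n + 1, ?_⟩
    have := Sq_t t X N hXt n hn'
    rwa [smul_inv_smul] at this
  have hNB : N ≤ Bp := by
    intro y hy
    rw [hBmem]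
    refine ⟨1, Submodule.mem_sup_right ?_⟩
    rw [pow_zero, tr_one]
    exact hy
  have hBsplit : Bp = tr t Bp ⊔ N := by
    apply le_antisymm
    · intro y hy
      rw [hBmem] at hy
      obtain ⟨n, hy⟩ := hy
      have key : ∀ n, Sq t X N n ≤ tr t Bp ⊔ N := by
        intro n
        induction n with
        | zero => exact hXN.trans le_sup_right
        | succ n ihn =>
          refine sup_le ihn ?_
          rcases n with _ | n
          · rw [pow_zero, tr_one]; exact le_sup_right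
          · refine le_trans ?_ le_sup_left
            rw [pow_succ', ← tr_tr]
            apply tr_mono
            intro z hz
            rw [hBmem]
            exact ⟨n + 1, Submodule.mem_sup_right hz⟩
      exact key n hy
    · exact sup_le hBt hNB
  have hBR : St R Bp := by
    intro g hg y hy
    rw [hBmem] at hy ⊢
    obtain ⟨n, hy⟩ := hy
    exact ⟨n, Sq_St hn (hX.mono hRK) hNR n g hg y hy⟩
  have hBY : Bp ≤ Y := iSup_le hSY
  -- the negative part
  let L' : Submodule J A := N ⊓ tr t Bp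
  have hL'R : St R L' := hNR.inf (hBR.tr hn)
  obtain ⟨τ2, hτ2, hG4⟩ := gen_free s R hs L' N hL'R (hFG L' inf_le_left)
  have hG5 : ∀ n : ℕ, tr (t ^ (n + 1))⁻¹ Bp = tr (t ^ n)⁻¹ Bp ⊔ tr (t ^ (n + 1))⁻¹ N := by
    intro n
    conv_lhs => rw [hBsplit]
    rw [tr_sup, tr_tr]
    congr 2
    rw [pow_succ']
    group
  have hG6 : ∀ n : ℕ, GF τ2 (tr (t ^ n)⁻¹ Bp) (tr (t ^ (n + 1))⁻¹ Bp) := by
    intro n
    rw [hG5 n]
    refine hG4.trans_tr (t ^ (n + 1))⁻¹ ?_
    intro m hm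
    rw [Submodule.mem_inf, mem_tr, mem_tr, inv_inv, ← mul_smul]
    have e : t ^ n * (t ^ (n + 1))⁻¹ = t⁻¹ := by
      rw [pow_succ']
      group
    rw [e]
    exact ⟨fun h => h.2, fun h => ⟨hm, h⟩⟩
  have hG7 : GF τ2 (tr (t ^ 0)⁻¹ Bp) (⨆ n : ℕ, tr (t ^ n)⁻¹ Bp) := by
    refine GF.chain (fun n : ℕ => tr (t ^ n)⁻¹ Bp) (fun n => ?_) hG6
    show tr (t ^ n)⁻¹ Bp ≤ tr (t ^ (n + 1))⁻¹ Bp
    rw [hG5 n]
    exact le_sup_left
  have hY : (⨆ n : ℕ, tr (t ^ n)⁻¹ Bp) = Y := by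
    apply le_antisymm
    · refine iSup_le fun n => ?_
      rw [← hYK.tr_eq (K.inv_mem (K.pow_mem ht n))]
      exact tr_mono _ hBY
    · intro y hy
      obtain ⟨k, n, hkn⟩ := hcov y hy
      refine Submodule.mem_iSup_of_mem k ?_
      rw [mem_tr, inv_inv, hBmem]
      exact ⟨n, hkn⟩
  rw [hY, pow_zero, inv_one, tr_one] at hG7
  exact ⟨τ1 * τ2, mul_ne_zero hτ1 hτ2, GF.trans hNB hBY (hG3.dvd (dvd_mul_right _ _))
    (hG7.dvd (dvd_mul_left _ _))⟩

theorem GF.rfl' (τ : J) (X : Submodule J A) : GF τ X X :=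
  ⟨∅, by simp, fun l hl _ => by
    rw [← Finsupp.support_eq_empty, ← Finset.coe_eq_empty]
    exact Set.subset_empty_iff.1 hl, fun y hy => ⟨0, 0, by simp, by simpa using hy⟩⟩

theorem chain [IsDomain J] [IsNoetherianRing J] {K₀ K : Subgroup Γ} (s : ℕ)
    (hs : Ser s K₀) (h : Chn K₀ K) (F : Finset A) : ∃ s' : ℕ, Ser s' K ∧ K₀ ≤ K ∧
    ∃ τ : J, τ ≠ 0 ∧ GF τ (sp J K₀ (F : Set A)) (sp J K (F : Set A)) := by
  induction h with
  | base => exact ⟨s, hs, le_rfl, 1, one_ne_zero, GF.rfl' _ _⟩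
  | step R K t hR hRK ht hn hc ih =>
    obtain ⟨s', hs', hle, τ, hτ, hG⟩ := ih
    obtain ⟨σ, hσ, hG'⟩ := step (J := J) s' R K t hs' hRK ht hn hc F
    refine ⟨s' + 1, ⟨R, t, hRK, ht, hn, hc, hs'⟩, hle.trans hRK, τ * σ, mul_ne_zero hτ hσ, ?_⟩
    exact Pool.Agent.Y45.HM.GF.trans (sp_mono hle _) (sp_mono hRK _) (hG.dvd (dvd_mul_right _ _))
      (hG'.dvd (dvd_mul_left _ _))

end

end Pool.Agent.H343.EM

namespace Pool.Agent.H343

open Pool.Agent.Y45.HM

theorem em_gf : Pool.Agent.H316.EM.S_GF := by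
  intro J Γ A _ _ _ _ _ _ _ _ K₀ K s hs hK F₀ F hF
  obtain ⟨s', hs', hle, τ, hτ, hG⟩ := EM.chain (J := J) s hs hK F₀
  obtain ⟨σ, hσ, hG'⟩ := gen_free s' K hs' (EM.sp J K (F₀ : Set A)) (⊤ : Submodule J A)
    (EM.sp_St K _) ⟨F, by rw [hF, sup_top_eq]⟩
  exact ⟨τ * σ, mul_ne_zero hτ hσ, Pool.Agent.Y45.HM.GF.trans (EM.sp_mono hle _) le_top
    (hG.dvd (dvd_mul_right _ _)) (hG'.dvd (dvd_mul_left _ _))⟩

end Pool.Agent.H343
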